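import Pool.Agent.helper82.LEQ.Spec

/-! # Project LEQ (MP_e82547_al), row WEB -/

set_option autoImplicit false

namespace LEQ

open scoped BigOperators
open QS (Lef EAb)

/-- WEB -/
theorem WEB (hTR : TR_stmt) (hW5 : W5_stmt) : WEB_stmt := by
  intro G _ _ p hp H hd
  rw [← hW5 H p hp hd]
  symm
  refine Finset.sum_bij (fun (h : H) _ => (h : G)) ?_ ?_ ?_ ?_
  · intro h _
    exact mem_FS.2 h.2
  · intro a _ b _ hab
    exact Subtype.ext hab
  · intro g hg
    exact ⟨⟨g, mem_FS.1 hg⟩, mem_FS.2 trivial, rfl⟩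
  · intro h _
    exact hTR G p H h

end LEQ
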