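import Pool.Agent.helper82.LEQ.Spec

/-! # Project LEQ (MP_e82547_al), row XO -/

set_option autoImplicit false

namespace LEQ

open scoped BigOperators
open QS (Lef EAb)

/-- XO -/
theorem XO (hXR : XR_stmt) : XO_stmt := by
  intro α _ _ P a ha hmax
  rw [hXR α P a ha]
  have h1 : (fun y => P y ∧ y ≠ a) = fun y => P y ∧ y < a := by
    funext y
    apply propext
    constructor
    · rintro ⟨h, h'⟩
      exact ⟨h, lt_of_le_of_ne (hmax y h) h'⟩
    · rintro ⟨h, h'⟩
      exact ⟨h, h'.ne⟩
  have h2 : XS (fun y => P y ∧ a < y) = -1 := by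
    unfold XS
    have h3 : FS (fun s : Finset α => IsChain (· ≤ ·) (s : Set α) ∧ ∀ x ∈ s, P x ∧ a < x) = {∅} := by
      ext s
      rw [mem_FS, Finset.mem_singleton]
      constructor
      · rintro ⟨_, h⟩
        apply Finset.eq_empty_of_forall_notMem
        intro x hx
        have h4 := h x hx
        exact absurd (hmax x h4.1) (not_le_of_gt h4.2)
      · rintro rfl
        exact ⟨by simp, by simp⟩
    rw [h3]
    simp
  rw [h1, h2]
  ring

end LEQ
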